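import Pool.Agent.H32.CH.Targets

/-! EN: enumeration of a connected set of maximum degree 2. -/

set_option autoImplicit false

namespace Pool.Agent.H14.CH.EN

open Finset Pool.Agent.H32.CH
open scoped Classical

/-- an injective path with n vertices in C -/
def Pth {V : Type} (G : SimpleGraph V) (C : Finset V) (n : ℕ) : Prop :=
  ∃ f : ℕ → V, (∀ i < n, ∀ j < n, f i = f j → i = j) ∧ (∀ i < n, f i ∈ C) ∧
    ∀ i, i + 1 < n → G.Adj (f i) (f (i + 1))

theorem pth_le {V : Type} {G : SimpleGraph V} {C : Finset V} {n : ℕ}
    (h : Pth G C n) : n ≤ C.card := by
  obtain ⟨f, h1, h2, -⟩ := h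
  have h3 : ((range n).image f).card = n := by
    rw [card_image_of_injOn, card_range]
    intro i hi j hj hij
    exact h1 i (mem_range.mp (mem_coe.mp hi)) j (mem_range.mp (mem_coe.mp hj)) hij
  rw [← h3]
  apply card_le_card
  intro y hy
  obtain ⟨i, hi, rfl⟩ := mem_image.mp hy
  exact h2 i (mem_range.mp hi)

theorem pf_EN : T_EN := by
  intro V _ G C hC hdeg
  obtain ⟨⟨c, hc⟩, hconn⟩ := hC
  have hP1 : Pth G C 1 := ⟨fun _ => c, fun i hi j hj _ => by omega, fun _ _ => hc,
    fun i hi => by omega⟩
  have hcard : 1 ≤ C.card := card_pos.mpr ⟨c, hc⟩
  obtain ⟨n, hn, hmax⟩ : ∃ n, Pth G C n ∧ ∀ m, Pth G C m → m ≤ n := by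
    refine ⟨Nat.findGreatest (Pth G C) C.card, Nat.findGreatest_spec hcard hP1, ?_⟩
    intro m hm
    exact Nat.le_findGreatest (pth_le hm) hm
  have hn1 : 1 ≤ n := hmax 1 hP1
  obtain ⟨f, f1, f2, f3⟩ := hn
  have hX : (range n).image f = C := by
    apply hconn
    · intro y hy
      obtain ⟨i, hi, rfl⟩ := mem_image.mp hy
      exact f2 i (mem_range.mp hi)
    · exact ⟨f 0, mem_image_of_mem f (mem_range.mpr (by omega))⟩
    · intro x hx y hy hxy
      obtain ⟨i, hi, rfl⟩ := mem_image.mp hx
      rw [mem_range] at hi
      by_contra hyn
      have hyf : ∀ j < n, f j ≠ y := by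
        intro j hj h
        exact hyn (h ▸ mem_image_of_mem f (mem_range.mpr hj))
      by_cases hi0 : i = 0
      · have h1 : Pth G C (n + 1) := by
          refine ⟨fun j => if j = 0 then y else f (j - 1), ?_, ?_, ?_⟩
          · intro a ha b hb hab
            simp only at hab
            by_cases ha0 : a = 0
            · by_cases hb0 : b = 0
              · omega
              · rw [if_pos ha0, if_neg hb0] at hab
                exact absurd hab.symm (hyf _ (by omega))
            · by_cases hb0 : b = 0
              · rw [if_neg ha0, if_pos hb0] at hab
                exact absurd hab (hyf _ (by omega))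
              · rw [if_neg ha0, if_neg hb0] at hab
                have := f1 _ (by omega) _ (by omega) hab
                omega
          · intro a ha
            simp only
            by_cases ha0 : a = 0
            · rw [if_pos ha0]; exact hy
            · rw [if_neg ha0]; exact f2 _ (by omega)
          · intro a ha
            simp only
            rw [if_neg (by omega : ¬ a + 1 = 0)]
            by_cases ha0 : a = 0
            · rw [if_pos ha0, ha0, zero_add]
              rw [hi0] at hxy
              exact hxy.symm
            · rw [if_neg ha0]
              have h2 := f3 (a - 1) (by omega)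
              rw [show a - 1 + 1 = a + 1 - 1 by omega] at h2
              exact h2
        have := hmax _ h1
        omega
      · by_cases hin : i = n - 1
        · have h1 : Pth G C (n + 1) := by
            refine ⟨fun j => if j < n then f j else y, ?_, ?_, ?_⟩
            · intro a ha b hb hab
              simp only at hab
              by_cases ha0 : a < n
              · by_cases hb0 : b < n
                · rw [if_pos ha0, if_pos hb0] at hab
                  exact f1 _ ha0 _ hb0 hab
                · rw [if_pos ha0, if_neg hb0] at hab
                  exact absurd hab (hyf _ ha0)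
              · by_cases hb0 : b < n
                · rw [if_neg ha0, if_pos hb0] at hab
                  exact absurd hab.symm (hyf _ hb0)
                · omega
            · intro a ha
              simp only
              by_cases ha0 : a < n
              · rw [if_pos ha0]; exact f2 _ ha0
              · rw [if_neg ha0]; exact hy
            · intro a ha
              simp only
              rw [if_pos (by omega : a < n)]
              by_cases ha0 : a + 1 < n
              · rw [if_pos ha0]; exact f3 _ ha0
              · rw [if_neg ha0]
                have h2 : a = i := by omega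
                rw [h2]
                exact hxy
          have := hmax _ h1
          omega
        · have h1 := f3 i (by omega)
          have h2 := f3 (i - 1) (by omega)
          rw [show i - 1 + 1 = i by omega] at h2
          have h3 : f (i - 1) ≠ f (i + 1) := fun h => by
            have := f1 _ (by omega) _ (by omega) h
            omega
          have h4 := dg_ge_three (G := G) (X := C) (v := f i) h3 (hyf (i - 1) (by omega))
            (hyf (i + 1) (by omega)) (f2 _ (by omega)) (f2 _ (by omega)) hy h2.symm h1 hxy
          have h5 := hdeg (f i) (f2 i hi)
          omega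
  have hnC : C.card = n := by
    rw [← hX, card_image_of_injOn, card_range]
    intro i hi j hj hij
    exact f1 i (mem_range.mp (mem_coe.mp hi)) j (mem_range.mp (mem_coe.mp hj)) hij
  rw [hnC]
  refine ⟨f, f1, hX.symm, f3, ?_⟩
  intro i j hij hj hadj
  by_cases hji : j = i + 1
  · exact Or.inl hji
  · right
    have hi0 : i = 0 := by
      by_contra hi0
      have h1 := f3 i (by omega)
      have h2 := f3 (i - 1) (by omega)
      rw [show i - 1 + 1 = i by omega] at h2
      have n1 : f (i - 1) ≠ f (i + 1) := fun h => by
        have := f1 _ (by omega) _ (by omega) h
        omega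
      have n2 : f (i - 1) ≠ f j := fun h => by
        have := f1 _ (by omega) _ (by omega) h
        omega
      have n3 : f (i + 1) ≠ f j := fun h => by
        have := f1 _ (by omega) _ (by omega) h
        omega
      have h4 := dg_ge_three (G := G) (X := C) (v := f i) n1 n2 n3 (f2 _ (by omega))
        (f2 _ (by omega)) (f2 _ hj) h2.symm h1 hadj
      have h5 := hdeg (f i) (f2 i (by omega))
      omega
    refine ⟨hi0, ?_⟩
    by_contra hjn
    have h1 := f3 j (by omega)
    have h2 := f3 (j - 1) (by omega)
    rw [show j - 1 + 1 = j by omega] at h2
    have n1 : f (j - 1) ≠ f (j + 1) := fun h => by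
      have := f1 _ (by omega) _ (by omega) h
      omega
    have n2 : f (j - 1) ≠ f i := fun h => by
      have := f1 _ (by omega) _ (by omega) h
      omega
    have n3 : f (j + 1) ≠ f i := fun h => by
      have := f1 _ (by omega) _ (by omega) h
      omega
    have h4 := dg_ge_three (G := G) (X := C) (v := f j) n1 n2 n3 (f2 _ (by omega))
      (f2 _ (by omega)) (f2 _ (by omega)) h2.symm h1 hadj.symm
    have h5 := hdeg (f j) (f2 j (by omega))
    omega

end Pool.Agent.H14.CH.EN
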