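import Pool.Agent.H32.CH.Targets

/-! M4: outside degree plus number of tokens is at most 2. -/

set_option autoImplicit false

namespace Pool.Agent.H14.CH.M4

open Finset Pool.Agent.H32.CH
open scoped Classical

theorem pf_M4 (h1 : T_M1) (h2 : T_M2) : T_M4 := by
  intro V _ G A hd htf hA b hb
  set K := A.filter (fun x => dg G A x = 2 ∧ G.Adj b x) with hK
  have hKm : ∀ x, x ∈ K ↔ x ∈ A ∧ dg G A x = 2 ∧ G.Adj b x := by
    intro x
    rw [hK, mem_filter]
  have key : ∀ K' : Finset V, K' ⊆ K → MinC G (A \ K') ∧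
      dg G (A \ K')ᶜ b = dg G Aᶜ b + K'.card ∧ ∀ x ∈ K, x ∉ K' → dg G (A \ K') x = 2 := by
    intro K'
    induction K' using Finset.induction_on with
    | empty =>
      intro _
      rw [sdiff_empty]
      exact ⟨hA, rfl, fun x hx _ => ((hKm x).mp hx).2.1⟩
    | insert x K'' hx ih =>
      intro hsub
      obtain ⟨i1, i2, i3⟩ := ih (fun y hy => hsub (mem_insert_of_mem hy))
      have hxK : x ∈ K := hsub (mem_insert_self _ _)
      obtain ⟨x1, x2, x3⟩ := (hKm x).mp hxK
      have hxA : x ∈ A \ K'' := mem_sdiff.mpr ⟨x1, hx⟩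
      have e1 : A \ insert x K'' = (A \ K'').erase x := by
        ext y
        simp only [mem_sdiff, mem_insert, mem_erase]
        tauto
      rw [e1]
      refine ⟨((h2 V G (A \ K'') hd i1).1 x hxA (i3 x hxK hx)).2, ?_, ?_⟩
      · rw [compl_erase', dg_insert_adj (by simpa using hxA) x3, i2, card_insert_of_notMem hx]
        ring
      · intro y hy hyn
        have hyK'' : y ∉ K'' := fun h => hyn (mem_insert_of_mem h)
        obtain ⟨y1, y2, y3⟩ := (hKm y).mp hy
        rw [dg_erase_not]
        · exact i3 y hy hyK''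
        · intro hadj
          exact htf b y x y3 hadj x3.symm
  obtain ⟨k1, k2, -⟩ := key K (Subset.refl _)
  have hb' : b ∉ A \ K := fun h => hb (mem_sdiff.mp h).1
  have := (h1 V G (A \ K) hd k1).2 b hb'
  omega

end Pool.Agent.H14.CH.M4
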